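import Mathlib
import Pool.Agent.MP06ac62.U2
import Pool.Agent.W646.CI.Stm

/-!
# Project CI, part WELL: one well
-/

set_option autoImplicit false

namespace Pool.Agent.W253.CI

open MeasureTheory Filter Topology Set Pool.Agent.W646.CI

lemma det_span (c : ℂ) :
    ((ContinuousLinearMap.toSpanSingleton ℂ c : ℂ →L[ℂ] ℂ).restrictScalars ℝ).det = ‖c‖ ^ 2 := by
  rw [ContinuousLinearMap.det]
  have e : ((((ContinuousLinearMap.toSpanSingleton ℂ c : ℂ →L[ℂ] ℂ).restrictScalars ℝ :
      ℂ →L[ℝ] ℂ)) : ℂ →ₗ[ℝ] ℂ) =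
      ((ContinuousLinearMap.toSpanSingleton ℂ c : ℂ →L[ℂ] ℂ) : ℂ →ₗ[ℂ] ℂ).restrictScalars ℝ := rfl
  rw [e, LinearMap.det_restrictScalars]
  simp [Algebra.norm_complex_eq, Complex.normSq_eq_norm_sq]

lemma DD_meas (K : ℕ) (R : ℝ) (j : ℕ) : MeasurableSet (DD K R j) := by
  have h1 : IsOpen (DD K R j) := by
    have e : DD K R j = {s : ℂ | |s.im - 8 * Real.sqrt j| < Real.pi / lj K j} ∩
        {s : ℂ | ‖Complex.exp (((lj K j / 2 : ℝ) : ℂ) * (s - sj K j)) - 1‖ < R} := rfl
    rw [e]
    apply IsOpen.inter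
    · exact isOpen_lt (by fun_prop) continuous_const
    · exact isOpen_lt (by fun_prop) continuous_const
  exact h1.measurableSet

theorem well : S_WELL := by
  intro K R j z hK hR hR1 hj
  have hlj : 0 < lj K j := by
    unfold lj
    have : (0 : ℝ) < K := by exact_mod_cast (by omega : 0 < K)
    have : (0 : ℝ) < j := by exact_mod_cast (by omega : 0 < j)
    positivity
  have hej : 0 < ej K j := Real.exp_pos _
  set a : ℝ := lj K j / 2 with ha
  have hapos : 0 < a := by positivity
  -- the function in the disc coordinate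
  set H : ℂ → ℂ := fun w => 1 - z * Complex.exp (-(sj K j + (1 / a : ℝ) * Complex.log w)) with hH
  set φ : ℂ → ℂ := fun s => Complex.exp (((a : ℝ) : ℂ) * (s - sj K j)) with hφ
  have hH1 : H 1 = 1 - z * Complex.exp (-sj K j) := by simp [hH]
  by_cases h0 : 1 - z * Complex.exp (-sj K j) = 0
  · rw [h0, norm_zero]; positivity
  set U : Set ℂ := {w : ℂ | 0 < w.re} with hU
  have hUo : IsOpen U := isOpen_lt continuous_const Complex.continuous_re
  have hUc : IsPreconnected U := by
    apply Convex.isPreconnected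
    exact convex_halfSpace_re_gt 0
  have hre : ∀ w ∈ Metric.closedBall (1 : ℂ) R, 0 < w.re := by
    intro w hw
    rw [Metric.mem_closedBall, dist_eq_norm] at hw
    have h1 := (Complex.abs_re_le_norm (w - 1)).trans hw
    rw [abs_le] at h1
    simp at h1
    linarith [h1.1]
  have hsub : Metric.closedBall (1 : ℂ) R ⊆ U := fun w hw => hre w hw
  have hHd : DifferentiableOn ℂ H U := by
    intro w hw
    have hw' : w ∈ Complex.slitPlane := Or.inl hw
    have hl : DifferentiableAt ℂ Complex.log w := Complex.differentiableAt_log hw'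
    apply DifferentiableAt.differentiableWithinAt
    simp only [hH]
    fun_prop
  have hmain := MinMod.U2.area_submean 1 R hR U hUo hUc hsub H hHd
    ⟨1, by simp [hU], by rw [hH1]; exact h0⟩
  rw [hH1] at hmain
  -- the image
  have him : ∀ s : ℂ, ((a : ℂ) * (s - sj K j)).im = a * (s.im - 8 * Real.sqrt j) := by
    intro s
    rw [Complex.im_ofReal_mul]
    simp [sj]
  have hre2 : ∀ s : ℂ, ((a : ℂ) * (s - sj K j)).re = a * (s.re - tj K j) := by
    intro s
    rw [Complex.re_ofReal_mul]
    simp [sj]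
  have hab : ∀ t : ℝ, |t| < Real.pi / lj K j ↔ |a * t| < Real.pi / 2 := by
    intro t
    rw [abs_mul, abs_of_pos hapos, ha, lt_div_iff₀ hlj]
    constructor <;> intro h <;> linarith
  have hlog : ∀ s : ℂ, s ∈ DD K R j → Complex.log (φ s) = (a : ℂ) * (s - sj K j) := by
    intro s hs
    have h1 : |((a : ℂ) * (s - sj K j)).im| < Real.pi / 2 := by
      rw [him, ← hab]; exact hs.1
    rw [abs_lt] at h1
    simp only [hφ]
    rw [Complex.log_exp (by linarith [Real.pi_pos]) (by linarith [Real.pi_pos])]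
  have hinj : InjOn φ (DD K R j) := by
    intro s hs s' hs' h
    have h1 := hlog s hs
    rw [h, hlog s' hs'] at h1
    have h2 : (a : ℂ) ≠ 0 := by exact_mod_cast hapos.ne'
    have h3 := mul_left_cancel₀ h2 h1
    linear_combination -h3
  have hainv : (((1 / a : ℝ)) : ℂ) * (a : ℂ) = 1 := by
    rw [← Complex.ofReal_mul]
    field_simp
    simp
  have himg : φ '' (DD K R j) = Metric.ball (1 : ℂ) R := by
    ext w
    constructor
    · rintro ⟨s, hs, rfl⟩
      rw [Metric.mem_ball, dist_eq_norm]
      exact hs.2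
    · intro hw
      have hw0 : 0 < w.re := hre w (Metric.ball_subset_closedBall hw)
      have hwne : w ≠ 0 := by
        rintro rfl; simp at hw0
      have e1 : (a : ℂ) * (sj K j + ((1 / a : ℝ) : ℂ) * Complex.log w - sj K j) = Complex.log w := by
        linear_combination Complex.log w * hainv
      refine ⟨sj K j + ((1 / a : ℝ) : ℂ) * Complex.log w, ⟨?_, ?_⟩, ?_⟩
      · rw [hab, ← him, e1, Complex.log_im]
        rw [Complex.abs_arg_lt_pi_div_two_iff]
        exact Or.inl hw0
      · rw [e1, Complex.exp_log hwne]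
        rwa [Metric.mem_ball, dist_eq_norm] at hw
      · simp only [hφ]
        rw [e1, Complex.exp_log hwne]
  have hder : ∀ s ∈ DD K R j, HasFDerivWithinAt φ
      ((ContinuousLinearMap.toSpanSingleton ℂ (φ s * (a : ℂ)) : ℂ →L[ℂ] ℂ).restrictScalars ℝ)
      (DD K R j) s := by
    intro s _
    have h1 : HasDerivAt φ (φ s * (a : ℂ)) s := by
      have h2 : HasDerivAt (fun s : ℂ => (a : ℂ) * (s - sj K j)) ((a : ℂ) * 1) s :=
        ((hasDerivAt_id s).sub_const _).const_mul _
      rw [mul_one] at h2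
      exact h2.cexp
    exact (h1.hasFDerivAt.restrictScalars ℝ).hasFDerivWithinAt
  have hcov := integral_image_eq_integral_abs_det_fderiv_smul volume (DD_meas K R j) hder hinj
    (fun w => Real.log ‖H w‖)
  rw [himg] at hcov
  rw [hcov] at hmain
  refine hmain.trans (le_of_eq ?_)
  congr 1
  have hint : ∫ s in DD K R j, |((ContinuousLinearMap.toSpanSingleton ℂ (φ s * (a : ℂ)) :
      ℂ →L[ℂ] ℂ).restrictScalars ℝ).det| • Real.log ‖H (φ s)‖ =
      ∫ s in DD K R j, (1 / (4 * ej K j)) * (den K j s.re *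
        Real.log ‖1 - z * Complex.exp (-s)‖) := by
    apply setIntegral_congr_fun (DD_meas K R j)
    intro s hs
    simp only
    rw [det_span, norm_mul, Complex.norm_real, Real.norm_of_nonneg hapos.le]
    have h1 : H (φ s) = 1 - z * Complex.exp (-s) := by
      simp only [hH]
      rw [hlog s hs]
      congr 3
      linear_combination -(s - sj K j) * hainv
    have h2 : ‖φ s‖ = Real.exp (a * (s.re - tj K j)) := by
      simp only [hφ]
      rw [Complex.norm_exp, hre2]
    rw [h1, h2, abs_of_nonneg (by positivity), smul_eq_mul, mul_pow, ← Real.exp_nat_mul]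
    unfold den
    have h3 : ((2 : ℕ) : ℝ) * (a * (s.re - tj K j)) = lj K j * (s.re - tj K j) := by
      rw [ha]; push_cast; ring
    rw [h3, ha]
    field_simp
    ring
  rw [hint, integral_const_mul]
  field_simp
  ring

end Pool.Agent.W253.CI
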